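import Pool.Agent.H6.NB.Targets
import Pool.Agent.H68.AC.Basic

/-!
Formulas are circuits (module CKT of nb_modules, MP_0f8dca_lc).
-/

set_option autoImplicit false

namespace Pool.Agent.H86.NB.CKT

open Pool.Agent.H6.NB Pool.Agent.H68.AC

/-- circuits with an arbitrary finite type of gates, and the values of their gates -/
structure GC (V G : Type) (d : ℕ) (f : (V → Bool) → Bool) where
  ch : G → List (Bool × (Inp V ⊕ G))
  lev : G → ℕ
  out : G
  W : (V → Bool) → G → Bool
  lev_lt : ∀ g, lev g < d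
  acyc : ∀ g b g', (b, Sum.inr g') ∈ ch g → lev g' < lev g
  val : ∀ y g, W y g = true ↔ ∃ c ∈ ch g, Sum.elim (Inp.val y) (W y) c.2 = c.1
  out_val : ∀ y, W y out = f y

/-- the one-gate circuit -/
noncomputable def base {V : Type} {f : (V → Bool) → Bool} {m : ℕ} (inp : Fin m → Inp V)
    (b : Fin m → Bool) (h : ∀ y, (f y = true ↔ ∃ i, Inp.val y (inp i) = b i)) : GC V Unit 1 f where
  ch := fun _ => List.ofFn (fun i => (b i, Sum.inl (inp i)))
  lev := fun _ => 0
  out := ()
  W := fun y _ => f y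
  lev_lt := fun _ => Nat.one_pos
  acyc := by
    intro g b' g' h'
    rw [List.mem_ofFn] at h'
    obtain ⟨i, hi⟩ := h'
    simp at hi
  val := by
    intro y g
    rw [h y]
    constructor
    · rintro ⟨i, hi⟩
      exact ⟨(b i, Sum.inl (inp i)), List.mem_ofFn.2 ⟨i, rfl⟩, hi⟩
    · rintro ⟨c, hc, hc2⟩
      rw [List.mem_ofFn] at hc
      obtain ⟨i, rfl⟩ := hc
      exact ⟨i, hc2⟩
  out_val := fun _ => rfl

/-- the disjunction of circuits -/
noncomputable def step {V : Type} {f : (V → Bool) → Bool} {m d : ℕ} (G : Fin m → Type)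
    (g : Fin m → (V → Bool) → Bool) (C : ∀ i, GC V (G i) d (g i)) (b : Fin m → Bool)
    (h : ∀ y, (f y = true ↔ ∃ i, g i y = b i)) :
    GC V (Option (Σ i, G i)) (d + 1) f where
  ch := fun x => match x with
    | none => List.ofFn (fun i => (b i, Sum.inr (some ⟨i, (C i).out⟩)))
    | some x => ((C x.1).ch x.2).map (fun c => (c.1, Sum.map id (fun g' => some ⟨x.1, g'⟩) c.2))
  lev := fun x => match x with
    | none => d
    | some x => (C x.1).lev x.2
  out := none
  W := fun y x => match x with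
    | none => f y
    | some x => (C x.1).W y x.2
  lev_lt := by
    rintro (_ | x)
    · exact Nat.lt_succ_self d
    · exact Nat.lt_succ_of_lt ((C x.1).lev_lt x.2)
  acyc := by
    rintro (_ | x) b' g' h'
    · simp only at h'
      rw [List.mem_ofFn] at h'
      obtain ⟨i, hi⟩ := h'
      rw [Prod.mk.injEq] at hi
      have h2 := Sum.inr.inj hi.2
      rw [← h2]
      exact (C i).lev_lt _
    · simp only at h'
      rw [List.mem_map] at h'
      obtain ⟨c, hc, hc2⟩ := h'
      rw [Prod.mk.injEq] at hc2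
      obtain ⟨c1, (c2 | c2)⟩ := c
      · simp at hc2
      · have h2 := Sum.inr.inj hc2.2
        rw [← h2]
        exact (C x.1).acyc x.2 c1 c2 hc
  val := by
    rintro y (_ | x)
    · simp only
      rw [h y]
      constructor
      · rintro ⟨i, hi⟩
        refine ⟨(b i, Sum.inr (some ⟨i, (C i).out⟩)), List.mem_ofFn.2 ⟨i, rfl⟩, ?_⟩
        simp only [Sum.elim_inr]
        rw [(C i).out_val y]
        exact hi
      · rintro ⟨c, hc, hc2⟩
        rw [List.mem_ofFn] at hc
        obtain ⟨i, rfl⟩ := hc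
        refine ⟨i, ?_⟩
        simp only [Sum.elim_inr] at hc2
        rw [(C i).out_val y] at hc2
        exact hc2
    · simp only
      rw [(C x.1).val y x.2]
      constructor
      · rintro ⟨c, hc, hc2⟩
        refine ⟨(c.1, Sum.map id (fun g' => some ⟨x.1, g'⟩) c.2), List.mem_map.2 ⟨c, hc, rfl⟩, ?_⟩
        obtain ⟨c1, (c2 | c2)⟩ := c
        · exact hc2
        · exact hc2
      · rintro ⟨c', hc', hc2⟩
        rw [List.mem_map] at hc'
        obtain ⟨c, hc, rfl⟩ := hc'
        refine ⟨c, hc, ?_⟩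
        obtain ⟨c1, (c2 | c2)⟩ := c
        · exact hc2
        · exact hc2
  out_val := fun _ => rfl

/-- transport to `Fin s` -/
noncomputable def toCkt {V G : Type} [Fintype G] {d : ℕ} {f : (V → Bool) → Bool} (C : GC V G d f) :
    Ckt V (Fintype.card G) d where
  ch := fun k => (C.ch ((Fintype.equivFin G).symm k)).map
    (fun c => (c.1, Sum.map id (Fintype.equivFin G) c.2))
  lev := fun k => C.lev ((Fintype.equivFin G).symm k)
  lev_lt := fun k => C.lev_lt _
  acyc := by
    intro g b g' h'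
    rw [List.mem_map] at h'
    obtain ⟨c, hc, hc2⟩ := h'
    rw [Prod.mk.injEq] at hc2
    obtain ⟨c1, (c2 | c2)⟩ := c
    · simp at hc2
    · have h2 := Sum.inr.inj hc2.2
      rw [← h2, Equiv.symm_apply_apply]
      exact C.acyc _ c1 c2 hc
  out := Fintype.equivFin G C.out

theorem toCkt_val {V G : Type} [Fintype G] {d : ℕ} {f : (V → Bool) → Bool} (C : GC V G d f)
    (y : V → Bool) : ∀ (n : ℕ) (k : Fin (Fintype.card G)), C.lev ((Fintype.equivFin G).symm k) < n →
      (toCkt C).val y k = C.W y ((Fintype.equivFin G).symm k) := by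
  intro n
  induction n with
  | zero => intro k h; omega
  | succ n ih =>
    intro k hk
    rw [Bool.eq_iff_iff, Ckt.val_eq, C.val]
    have key : ∀ c ∈ C.ch ((Fintype.equivFin G).symm k),
        (toCkt C).sval y (Sum.map id (Fintype.equivFin G) c.2) =
          Sum.elim (Inp.val y) (C.W y) c.2 := by
      rintro ⟨c1, (c2 | c2)⟩ hc
      · rfl
      · have h1 := C.acyc _ c1 c2 hc
        have h2 := ih (Fintype.equivFin G c2) (by rw [Equiv.symm_apply_apply]; omega)
        rw [Equiv.symm_apply_apply] at h2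
        exact h2
    constructor
    · rintro ⟨c', hc', hc2⟩
      have hc'' : c' ∈ (C.ch ((Fintype.equivFin G).symm k)).map
        (fun c => (c.1, Sum.map id (Fintype.equivFin G) c.2)) := hc'
      rw [List.mem_map] at hc''
      obtain ⟨c, hc, rfl⟩ := hc''
      exact ⟨c, hc, by rw [← key c hc]; exact hc2⟩
    · rintro ⟨c, hc, hc2⟩
      refine ⟨(c.1, Sum.map id (Fintype.equivFin G) c.2), ?_, ?_⟩
      · show _ ∈ (C.ch ((Fintype.equivFin G).symm k)).map
          (fun c => (c.1, Sum.map id (Fintype.equivFin G) c.2))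
        exact List.mem_map.2 ⟨c, hc, rfl⟩
      · rw [key c hc]
        exact hc2

theorem exists_gc (V : Type) (S : ℕ) : ∀ (d : ℕ) (f : (V → Bool) → Bool), Cl V S (d + 1) f →
    ∃ (G : Type) (_ : Fintype G), Fintype.card G ≤ (S + 1) ^ (d + 1) ∧ Nonempty (GC V G (d + 1) f) := by
  intro d
  induction d with
  | zero =>
    rintro f ⟨m, g, b, hm, hg, hf⟩
    have hinp : ∀ i, ∃ x : Inp V, ∀ y, Inp.val y x = g i y := by
      intro i
      rcases hg i with ⟨c, hc⟩ | ⟨v, hv⟩
      · exact ⟨Inp.const c, fun y => (hc y).symm⟩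
      · exact ⟨Inp.var v, fun y => (hv y).symm⟩
    choose inp hinp using hinp
    refine ⟨Unit, inferInstance, by simp, ⟨base inp b ?_⟩⟩
    intro y
    rw [hf y]
    simp only [hinp]
  | succ d ih =>
    rintro f ⟨m, g, b, hm, hg, hf⟩
    have h1 := fun i => ih (g i) (hg i)
    choose G hG hcard hC using h1
    refine ⟨Option (Σ i, G i), inferInstance, ?_, ⟨step G g (fun i => (hC i).some) b hf⟩⟩
    rw [Fintype.card_option, Fintype.card_sigma]
    have h2 : ∑ i, Fintype.card (G i) ≤ m * (S + 1) ^ (d + 1) := by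
      calc ∑ i, Fintype.card (G i) ≤ ∑ _i : Fin m, (S + 1) ^ (d + 1) :=
            Finset.sum_le_sum (fun i _ => hcard i)
        _ = m * (S + 1) ^ (d + 1) := by simp
    have h3 : m * (S + 1) ^ (d + 1) ≤ S * (S + 1) ^ (d + 1) := Nat.mul_le_mul_right _ hm
    have h4 : 1 ≤ (S + 1) ^ (d + 1) := Nat.one_le_pow _ _ (Nat.succ_pos S)
    have h5 : (S + 1) ^ (d + 1 + 1) = S * (S + 1) ^ (d + 1) + (S + 1) ^ (d + 1) := by ring
    omega

theorem t_ckt : T_CKT := by
  intro V S d f hf
  obtain ⟨G, hG, hcard, ⟨C⟩⟩ := exists_gc V S d f hf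
  refine ⟨Fintype.card G, toCkt C, hcard, fun y => ?_⟩
  rw [toCkt_val C y _ _ (Nat.lt_succ_self _)]
  show C.W y ((Fintype.equivFin G).symm (Fintype.equivFin G C.out)) = f y
  rw [Equiv.symm_apply_apply]
  exact C.out_val y

end Pool.Agent.H86.NB.CKT
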