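import Pool.Agent.H6.NB.Targets

/-!
The instances as DNFs (module DNF of nb_modules, MP_0f8dca_lc).
-/

set_option autoImplicit false

namespace Pool.Agent.H86.NB.DNF

open Pool.Agent.H6.NB

lemma key_len (s : List Bool) : (key s).length = s.length + 2 := by
  simp [key]

lemma blk_len (h5 : T_COD) (s z : List Bool) (i : ℕ) (f : Bool) :
    s.length ≤ (blk s i f z).length := by
  unfold blk
  simp only [List.length_cons, h5.2]
  omega

lemma low_cls (h3 : T_CLS) (h4 : T_LVL) (h5 : T_COD) {n a : ℕ} (hn : 2 ≤ n) (o : List Bool → Bool)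
    (s : Om n (2 ^ a)) (w : List Bool) (m : ℕ) (hm : m ^ 2 ≤ s.1.length) (hw : w.length ≤ m) :
    Low (fun s : Om n (2 ^ a) => lv n s.1) (lv n s.1) (cls n (2 ^ a) o w) := by
  have hlt : ∀ s' : Om n (2 ^ a), s'.1.length ≤ m → lv n s'.1 < lv n s.1 := by
    intro s' hs'
    exact (h4 n a hn).1 s.1 s'.1 s'.2.1 (le_trans (Nat.pow_le_pow_left hs' 2) hm)
  rcases (h3 n (2 ^ a) o).2.2.2 w with ⟨u, v, h⟩ | ⟨s', h⟩ | ⟨s', i, v, h⟩ | h
  · rw [h, (h3 n (2 ^ a) o).1 u v]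
    trivial
  · have hl := key_len s'.1
    rw [← h] at hl
    rw [h, (h3 n (2 ^ a) o).2.1 s']
    exact hlt s' (by omega)
  · have hl := blk_len h5 s'.1 (List.ofFn v.2) i v.1
    rw [← h] at hl
    rw [h, (h3 n (2 ^ a) o).2.2.1 s' i v]
    exact hlt s' (by omega)
  · rw [h]
    trivial

lemma paths (h1 : T_PTH) {prog : List Bool → List Bool → DT} (hs : Small prog) {t : ℕ}
    (s : List Bool) (hst : s.length < t ^ 2) (w : List Bool) :
    ∃ Ps : List (List (List Bool × Bool)), Ps.length ≤ 2 ^ (t - 1) ∧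
      (∀ τ ∈ Ps, τ.length ≤ t ∧ ∃ m, m ^ 2 ≤ s.length ∧ ∀ c ∈ τ, c.1.length ≤ m) ∧
      (w.length ^ 2 ≤ s.length → ∀ O, ((prog s w).eval O = true ↔
        ∃ τ ∈ Ps, ∀ c ∈ τ, O c.1 = c.2)) := by
  by_cases hw : w.length ^ 2 ≤ s.length
  · obtain ⟨hd, m, hm, hsh⟩ := hs s w hw
    obtain ⟨Ps, p1, p2, p3⟩ := h1 (prog s w) m hsh
    have hdt : (prog s w).depth < t := by
      by_contra hcon
      push Not at hcon
      have := Nat.pow_le_pow_left hcon 2
      omega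
    refine ⟨Ps, le_trans p1 (Nat.pow_le_pow_right (by norm_num) (by omega)), ?_, fun _ => p3⟩
    intro τ hτ
    obtain ⟨q1, q2⟩ := p2 τ hτ
    exact ⟨by omega, m, hm, q2⟩
  · exact ⟨[], by simp, by simp, fun h => (hw h).elim⟩

lemma sum_len {α : Type} (L : List α) (f : α → ℕ) (B : ℕ) (h : ∀ x ∈ L, f x ≤ B) :
    (L.map f).sum ≤ L.length * B := by
  induction L with
  | nil => simp
  | cons x L ih =>
    rw [List.map_cons, List.sum_cons, List.length_cons, add_mul, one_mul]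
    have h1 := h x (by simp)
    have h2 := ih (fun y hy => h y (by simp [hy]))
    omega

theorem t_dnf (h1 : T_PTH) (h2 : T_FIS) (h3 : T_CLS) (h4 : T_LVL) (h5 : T_COD) : T_DNF := by
  intro prog n a t o hprog hn hnt
  have hlen : ∀ s : Om n (2 ^ a), s.1.length < t ^ 2 := fun s => lt_of_lt_of_le s.2.2 hnt
  have hchoose : ∀ (s : Om n (2 ^ a)) (w : List Bool), _ := fun s w =>
    paths h1 hprog s.1 (hlen s) w
  choose Q hQ1 hQ2 hQ3 using hchoose
  obtain ⟨Ws, hW1, hW2⟩ := h2.1 (t - 1)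
  have ht : 1 ≤ t := by
    by_contra h
    have ht0 : t = 0 := by omega
    subst ht0
    have : 0 < n ^ 2 ^ a := by positivity
    omega
  set D : Om n (2 ^ a) → List (List (Cs n (2 ^ a) × Bool)) := fun s =>
    (Ws.filter (fun w => decide (w.length ^ 2 ≤ s.1.length))).flatMap (fun w =>
      (Q s w).map (fun τ => τ.map (fun c => (cls n (2 ^ a) o c.1, c.2)))) with hD
  have hmem : ∀ (s : Om n (2 ^ a)) (τ : List (Cs n (2 ^ a) × Bool)), τ ∈ D s ↔
      ∃ w ∈ Ws, w.length ^ 2 ≤ s.1.length ∧ ∃ τ' ∈ Q s w,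
        τ = τ'.map (fun c => (cls n (2 ^ a) o c.1, c.2)) := by
    intro s τ
    simp only [hD, List.mem_flatMap, List.mem_filter, decide_eq_true_eq, List.mem_map]
    constructor
    · rintro ⟨w, ⟨h6, h7⟩, τ', h8, rfl⟩
      exact ⟨w, h6, h7, τ', h8, rfl⟩
    · rintro ⟨w, h6, h7, τ', h8, rfl⟩
      exact ⟨w, ⟨h6, h7⟩, τ', h8, rfl⟩
  refine ⟨D, ⟨?_, ?_, ?_, ?_⟩, ?_⟩
  · intro s
    simp only [hD]
    rw [List.length_flatMap]
    refine le_trans (sum_len _ _ (2 ^ (t - 1)) (fun w _ => ?_)) ?_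
    · rw [List.length_map]
      exact hQ1 s w
    · calc _ ≤ 2 ^ (t - 1 + 1) * 2 ^ (t - 1) :=
            Nat.mul_le_mul_right _ (le_trans (List.length_filter_le _ _) hW1)
        _ = 2 ^ (t - 1 + 1 + (t - 1)) := by rw [← pow_add]
        _ ≤ 2 ^ (2 * t + 1) := Nat.pow_le_pow_right (by norm_num) (by omega)
  · intro s τ hτ
    obtain ⟨w, -, -, τ', h8, rfl⟩ := (hmem s τ).1 hτ
    rw [List.length_map]
    exact (hQ2 s w τ' h8).1
  · intro s τ hτ c hc
    obtain ⟨w, -, -, τ', h8, rfl⟩ := (hmem s τ).1 hτ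
    rw [List.mem_map] at hc
    obtain ⟨c', hc', rfl⟩ := hc
    obtain ⟨-, m, hm, hlenm⟩ := hQ2 s w τ' h8
    exact low_cls h3 h4 h5 hn o s c'.1 m hm (hlenm c' hc')
  · intro s
    exact (h4 n a hn).2 s
  · intro s Y e P
    have hdnf : accD D P s Y e = true ↔ ∃ τ ∈ D s, ∀ c ∈ τ, vl Y e P c.1 = c.2 := by
      simp only [accD, dnf, List.any_eq_true, List.all_eq_true, beq_iff_eq]
    rw [hdnf]
    constructor
    · rintro ⟨w, hw, hO⟩
      rw [hQ3 s w hw] at hO
      obtain ⟨τ, hτ, hc⟩ := hO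
      refine ⟨τ.map (fun c => (cls n (2 ^ a) o c.1, c.2)), (hmem s _).2 ⟨w, ?_, hw, τ, hτ, rfl⟩, ?_⟩
      · apply hW2
        have h6 : w.length < t := by
          by_contra hcon
          push Not at hcon
          have := Nat.pow_le_pow_left hcon 2
          have := hlen s
          omega
        omega
      · intro c hc'
        rw [List.mem_map] at hc'
        obtain ⟨c', hc'', rfl⟩ := hc'
        exact hc c' hc''
    · rintro ⟨τ, hτ, hc⟩
      obtain ⟨w, -, hw, τ', h8, rfl⟩ := (hmem s τ).1 hτ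
      refine ⟨w, hw, ?_⟩
      rw [hQ3 s w hw]
      refine ⟨τ', h8, fun c' hc' => ?_⟩
      exact hc (cls n (2 ^ a) o c'.1, c'.2) (List.mem_map_of_mem hc')

end Pool.Agent.H86.NB.DNF
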