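import Pool.Agent.H6.NB.Targets

/-!
The universal machine (module UNI of nb_modules, MP_0f8dca_lc).
-/

set_option autoImplicit false

namespace Pool.Agent.H86.NB.UNI

open Pool.Agent.H6.NB

open Classical in
/-- the universal machine -/
noncomputable def prog (V : ℕ → Verifier) (s w : List Bool) : DT :=
  if h : ∃ p : ℕ × List Bool, s = inst (V p.1).c p.1 p.2 ∧
      w.length ≤ p.2.length ^ (V p.1).c + (V p.1).c then
    (V h.choose.1).tree h.choose.2 w
  else DT.leaf false

lemma inst_inj (h1 : T_COD) {c c' i i' : ℕ} {x x' : List Bool} (h : inst c i x = inst c' i' x') :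
    i = i' ∧ x = x' := by
  obtain ⟨h2, h3, -⟩ := h1.1 _ _ _ _ _ _ h
  refine ⟨?_, h2⟩
  have := congrArg List.length h3
  simpa using this

lemma inst_len (h1 : T_COD) (c i : ℕ) (x : List Bool) :
    (x.length ^ c + c + 1) ^ 2 ≤ (inst c i x).length := by
  unfold inst
  rw [h1.2]
  omega

lemma prog_inst (h1 : T_COD) (V : ℕ → Verifier) (i : ℕ) (x w : List Bool)
    (hw : w.length ≤ x.length ^ (V i).c + (V i).c) :
    prog V (inst (V i).c i x) w = (V i).tree x w := by
  have h : ∃ p : ℕ × List Bool, inst (V i).c i x = inst (V p.1).c p.1 p.2 ∧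
      w.length ≤ p.2.length ^ (V p.1).c + (V p.1).c := ⟨(i, x), rfl, hw⟩
  unfold prog
  rw [dif_pos h]
  obtain ⟨e1, e2⟩ := inst_inj h1 h.choose_spec.1
  rw [← e2, ← e1]

lemma prog_cases (h1 : T_COD) (V : ℕ → Verifier) (s w : List Bool) :
    (prog V s w = DT.leaf false) ∨ ∃ (i : ℕ) (x : List Bool), s = inst (V i).c i x ∧
      w.length ≤ x.length ^ (V i).c + (V i).c ∧ prog V s w = (V i).tree x w := by
  by_cases h : ∃ p : ℕ × List Bool, s = inst (V p.1).c p.1 p.2 ∧
      w.length ≤ p.2.length ^ (V p.1).c + (V p.1).c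
  · right
    obtain ⟨⟨i, x⟩, h2, h3⟩ := h
    refine ⟨i, x, h2, h3, ?_⟩
    rw [h2]
    exact prog_inst h1 V i x w h3
  · left
    unfold prog
    rw [dif_neg h]

theorem t_uni (h1 : T_COD) : T_UNI := by
  intro V
  refine ⟨prog V, ?_, ?_⟩
  · intro s w _
    rcases prog_cases h1 V s w with h | ⟨i, x, hs, hw, h⟩
    · rw [h]
      refine ⟨by simp [DT.depth], 0, by simp, trivial⟩
    · rw [h]
      have h2 := inst_len h1 (V i).c i x
      rw [← hs] at h2
      have h3 : (x.length ^ (V i).c + (V i).c) ^ 2 ≤ s.length :=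
        le_trans (Nat.pow_le_pow_left (Nat.le_succ _) 2) h2
      refine ⟨le_trans (Nat.pow_le_pow_left ((V i).depth_le x w hw) 2) h3,
        x.length ^ (V i).c + (V i).c, h3, (V i).short x w hw⟩
  · intro i x O
    constructor
    · rintro ⟨w, hw, hO⟩
      refine ⟨w, ?_, ?_⟩
      · have h2 := inst_len h1 (V i).c i x
        exact le_trans (Nat.pow_le_pow_left (le_trans hw (Nat.le_succ _)) 2) h2
      · rw [prog_inst h1 V i x w hw]
        exact hO
    · rintro ⟨w, -, hO⟩
      rcases prog_cases h1 V (inst (V i).c i x) w with h | ⟨i', x', hs, hw, h⟩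
      · rw [h] at hO
        simp [DT.eval] at hO
      · obtain ⟨e1, e2⟩ := inst_inj h1 hs
        subst e1 e2
        refine ⟨w, hw, ?_⟩
        rw [h] at hO
        exact hO

end Pool.Agent.H86.NB.UNI
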