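import Pool.Agent.H6.NB.Targets

/-!
Not typical is a small formula in one copy (module CBD of nb_modules, MP_0f8dca_lc).
-/

set_option autoImplicit false

namespace Pool.Agent.H86.NB.CBD

open Pool.Agent.H6.NB Finset

lemma entries {Ω : Type} [DecidableEq Ω] {nn qq : Ω → ℕ} (S : ℕ) (P : Blk nn qq) (s0 : Ω)
    (i0 : Fin (nn s0)) (s : Ω) (i : Fin (nn s)) (v : VV (qq s)) :
    Cl (VV (qq s0)) S 0 (fun p => updC P s0 i0 p s i v) := by
  by_cases hs : s = s0
  · subst hs
    by_cases hi : i = i0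
    · subst hi
      right
      exact ⟨v, fun p => by simp [updC]⟩
    · left
      exact ⟨P s i v, fun p => by simp [updC, Function.update_of_ne hi]⟩
  · left
    exact ⟨P s i v, fun p => by simp [updC, Function.update_of_ne hs]⟩

lemma ex_eq {X Yv Ω : Type} [DecidableEq X] (acc : Ω → Fn X Yv Ω) (h : ℕ) (Y : X → Option Yv)
    (e : Ω → Bool) (x : X) (s : Ω) : ex acc h Y e x s = xor (e s) (dlt acc h Y e x s) := by
  unfold dlt
  cases e s <;> cases ex acc h Y e x s <;> rfl

lemma cl_xor_const (h1 : T_CLB) {V : Type} {S : ℕ} (hS : 2 ≤ S) {d : ℕ} {f : (V → Bool) → Bool}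
    (hf : Cl V S d f) (b : Bool) : Cl V S (d + 1) (fun y => xor b (f y)) := by
  obtain ⟨-, c2, -, c4, -⟩ := h1 V S hS
  cases b
  · have h : (fun y => xor false (f y)) = f := by
      funext y
      simp
    rw [h]
    exact c2 d (d + 1) f (Nat.le_succ d) hf
  · refine c4 d [(f, false)] _ (by simp; omega) ?_ ?_
    · intro c hc
      simp only [List.mem_singleton] at hc
      rw [hc]
      exact hf
    · intro y
      simp

section

variable {X Yv Ω : Type} [DecidableEq X] [DecidableEq Yv]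
  [DecidableEq Ω] {nn qq : Ω → ℕ} {D : Ω → List (List (Crd X Yv Ω nn qq × Bool))} {lev : Ω → ℕ}
  {t h S : ℕ}

lemma dlt_cl (h1 : T_CLB) (h2 : T_CLA) (h3 : T_EXB) (h4 : T_CER) (hsys : Sys D lev t h S)
    (hS : 2 ≤ S) (htS : t ≤ S) (Y : X → Option Yv) (e : Ω → Bool) (P : Blk nn qq) (s0 : Ω)
    (i0 : Fin (nn s0)) (x : X) : ∀ (n : ℕ) (s : Ω), lev s < n →
      Cl (VV (qq s0)) S (5 * (lev s + 1)) fun p =>
        dlt (accD D (updC P s0 i0 p)) h Y e x s := by
  obtain ⟨c1, c2, c3, c4, c5⟩ := h1 (VV (qq s0)) S hS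
  intro n
  induction n with
  | zero => intro s hs; omega
  | succ n ih =>
    intro s hs
    have hdlt : (fun p => dlt (accD D (updC P s0 i0 p)) h Y e x s) =
        fun p => xor (dnf (D s) (updC P s0 i0 p) Y e)
          (dnf (D s) (updC P s0 i0 p) (sta Y x) (ex (accD D (updC P s0 i0 p)) h Y e x)) := by
      funext p
      rw [(h3 X Yv Ω (accD D (updC P s0 i0 p)) lev t h
        (h4 X Yv Ω nn qq D lev t h S hsys (updC P s0 i0 p))).2.2.1 Y e x s]
      rfl
    rw [hdlt]
    have hA : Cl (VV (qq s0)) S (5 * lev s + 3) fun p => dnf (D s) (updC P s0 i0 p) Y e := by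
      have h5 := h2 X Yv Ω (VV (qq s0)) nn qq (D s) lev t (lev s) S 0 Y (fun _ => e)
        (fun p => updC P s0 i0 p) hS htS (hsys.len s) (hsys.width s) (hsys.low s)
        (fun s' _ => c1 0 (e s')) (fun s' i' v => entries S P s0 i0 s' i' v)
      exact c2 _ _ _ (by omega) h5
    have hB : Cl (VV (qq s0)) S (5 * lev s + 3) fun p =>
        dnf (D s) (updC P s0 i0 p) (sta Y x) (ex (accD D (updC P s0 i0 p)) h Y e x) := by
      refine h2 X Yv Ω (VV (qq s0)) nn qq (D s) lev t (lev s) S (5 * lev s + 1) (sta Y x)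
        (fun p => ex (accD D (updC P s0 i0 p)) h Y e x)
        (fun p => updC P s0 i0 p) hS htS (hsys.len s) (hsys.width s) (hsys.low s)
        (fun s' hs' => ?_) (fun s' i' v => c2 _ _ _ (Nat.zero_le _) (entries S P s0 i0 s' i' v))
      have h6 := c2 _ (5 * lev s) _ (by omega) (ih s' (by omega))
      have h7 := cl_xor_const h1 hS h6 (e s')
      have h8 : (fun p => ex (accD D (updC P s0 i0 p)) h Y e x s') =
          fun p => xor (e s') (dlt (accD D (updC P s0 i0 p)) h Y e x s') := by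
        funext p
        exact ex_eq _ _ _ _ _ _
      rw [h8]
      exact h7
    have h9 := c5 _ _ _ hA hB
    have e1 : 5 * (lev s + 1) = 5 * lev s + 3 + 2 := by ring
    rw [e1]
    exact h9

lemma exists_map {T : Finset X} {M : ℕ} (hT : T.card ≤ M + 1) (hT0 : T.Nonempty) :
    ∃ f : Fin (M + 1) → X, univ.image f = T := by
  obtain ⟨t0, ht0⟩ := hT0
  refine ⟨fun j => if hj : j.1 < T.card then ((T.equivFin).symm ⟨j.1, hj⟩).1 else t0, ?_⟩
  ext z
  simp only [mem_image, mem_univ, true_and]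
  constructor
  · rintro ⟨j, rfl⟩
    split_ifs
    · exact ((T.equivFin).symm _).2
    · exact ht0
  · intro hz
    have hlt := (T.equivFin ⟨z, hz⟩).2
    refine ⟨⟨(T.equivFin ⟨z, hz⟩).1, by omega⟩, ?_⟩
    simp

end

theorem t_cbd (h1 : T_CLB) (h2 : T_CLA) (h3 : T_EXB) (h4 : T_CER) : T_CBD := by
  intro X Yv Ω _ _ _ _ _ nn qq D lev t h S M K hsys hS htS hK hMS hcard hX Y e P s0 i0
  obtain ⟨c1, c2, c3, c4, c5⟩ := h1 (VV (qq s0)) S hS
  have hdl : ∀ (x : X) (s : Ω), Cl (VV (qq s0)) S (5 * h) fun p =>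
      dlt (accD D (updC P s0 i0 p)) h Y e x s := by
    intro x s
    have hlt := hsys.lt s
    exact c2 _ _ _ (by omega)
      (dlt_cl h1 h2 h3 h4 hsys hS htS Y e P s0 i0 x (lev s + 1) s (Nat.lt_succ_self _))
  refine c3 (5 * h + 1) (Ω × (Fin (M + 1) → X))
    (fun sf p => if K (lev sf.1) + 1 ≤ (univ.image sf.2).card then
      decide (∃ i, dlt (accD D (updC P s0 i0 p)) h Y e (sf.2 i) sf.1 = false) else true)
    (fun _ => false) _ ?_ ?_ ?_
  · simpa using hcard
  · intro sf
    by_cases hsf : K (lev sf.1) + 1 ≤ (univ.image sf.2).card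
    · simp only [if_pos hsf]
      refine c3 (5 * h) (Fin (M + 1)) (fun i p =>
        dlt (accD D (updC P s0 i0 p)) h Y e (sf.2 i) sf.1) (fun _ => false) _ (by simpa using hMS)
        (fun i => hdl _ _) ?_
      intro y
      rw [decide_eq_true_eq]
    · simp only [if_neg hsf]
      exact c1 _ true
  · intro p
    have hiff : ∀ (q : Prop) (inst : Decidable q), (@decide q inst = true) ↔ q :=
      fun q _ => decide_eq_true_iff
    rw [hiff]
    unfold Typ
    push Not
    constructor
    · rintro ⟨s, hs, hcd⟩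
      obtain ⟨T, hT1, hT2⟩ := Finset.exists_subset_card_eq
        (n := K (lev s) + 1) (s := dset (accD D (updC P s0 i0 p)) h Y e s) hcd
      obtain ⟨f, hf⟩ := exists_map (T := T) (M := M) (by rw [hT2]; have := hK _ hs; omega)
        (Finset.card_pos.1 (by omega))
      refine ⟨(s, f), ?_⟩
      simp only
      rw [if_pos (by rw [hf, hT2]), decide_eq_false_iff_not]
      rintro ⟨i, hi⟩
      have h5 : f i ∈ T := by
        rw [← hf]
        exact mem_image_of_mem f (mem_univ i)
      have h6 := hT1 h5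
      rw [dset, mem_filter] at h6
      rw [h6.2] at hi
      exact Bool.noConfusion hi
    · rintro ⟨⟨s, f⟩, hsf⟩
      simp only at hsf
      by_cases hc : K (lev s) + 1 ≤ (univ.image f).card
      · rw [if_pos hc, decide_eq_false_iff_not] at hsf
        push Not at hsf
        refine ⟨s, hsys.lt s, lt_of_lt_of_le (Nat.lt_of_succ_le hc) (card_le_card ?_)⟩
        intro z hz
        rw [mem_image] at hz
        obtain ⟨i, -, rfl⟩ := hz
        rw [dset, mem_filter]
        refine ⟨mem_univ _, ?_⟩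
        have := hsf i
        simpa using this
      · rw [if_neg hc] at hsf
        exact Bool.noConfusion hsf

end Pool.Agent.H86.NB.CBD
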